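import Pool.Agent.MP_e0ff90_an.Bridge
import Pool.Agent.MP_e0ff90_an.FreeSys
import Pool.Agent.MP_e0ff90_an.Good
import Pool.Agent.MP_e0ff90_an.Limit

/-!
# A non-hyperfinite II₁ factor with trivial ultrapower bicommutant

The factor is `N = L(G)`, where `G` is the group of all pairs `(π, g)` with `g ∈ F₂` and `π` a
permutation of a countable `F₂`-set `X` (with finite orbits) that agrees with `g` off a finite set.
-/

open MP_e0ff90_an (LG trG L2 F2 Sys sysF2 isIIOneFactor_of_icc bicommutant_eq_of_good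
  false_of_hyperfinite isTrace_trG)
open PopaBicommutant

namespace Pool.Agent.Results.MP_e0ff90_an.Counterexample

universe u

/-- There is a II₁ factor `F` acting on a separable Hilbert space such that
`(N' ∩ N^𝓤)' ∩ N^𝓤 = N` for every non-principal ultrafilter `𝓤` on `ℕ`, and which is not
isomorphic to any hyperfinite II₁ factor. -/
theorem result :
    ∃ (H : Type) (_ : NormedAddCommGroup H) (_ : InnerProductSpace ℂ H) (_ : CompleteSpace H)
      (F : IIOneFactor H), TopologicalSpace.SeparableSpace H ∧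
      (∀ 𝓤 : Ultrafilter ℕ, (∀ n : ℕ, 𝓤 ≠ pure n) → bicommutant F 𝓤 = diagRange F 𝓤) ∧
      ∀ (K : Type u) [NormedAddCommGroup K] [InnerProductSpace ℂ K] [CompleteSpace K]
        (R : IIOneFactor K), R.IsHyperfinite → ¬ Isomorphic F R := by
  have hne : ∃ h : sysF2.GG, h ≠ 1 := by
    refine ⟨sysF2.lift (FreeGroup.of true), fun h => ?_⟩
    have h2 := congrArg Sys.gam h
    rw [Sys.gam_lift, map_one] at h2
    exact FreeGroup.of_ne_one true h2
  have hN := isIIOneFactor_of_icc (G := sysF2.GG) (fun h hh => Sys.infinite_conjClass hh) hne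
  refine ⟨L2 sysF2.GG, inferInstance, inferInstance, inferInstance, ofOld hN, inferInstance,
    ?_, ?_⟩
  · intro 𝓤 h𝓤
    have hfree : (𝓤 : Filter ℕ) ≤ Filter.cofinite := by
      rcases 𝓤.le_cofinite_or_eq_pure with h | ⟨n, hn⟩
      · exact h
      · exact absurd hn (h𝓤 n)
    exact bicommutant_eq _ 𝓤 (old_eq_congr (ofOld hN).isTrace (isTrace_trG sysF2.GG)
      (ofOld_lin hN) 𝓤 (bicommutant_eq_of_good (Sys.good sysF2) 𝓤 hfree))
  · intro K _ _ _ R hR hiso
    obtain ⟨Θ⟩ := exists_starAlgEquiv hiso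
    exact false_of_hyperfinite Sys.gam (fun t => sysF2.lift (FreeGroup.of t))
      (fun t => Sys.gam_lift _) R.N R.lin R.isTrace (isHyperfinite_old hR) Θ

end Pool.Agent.Results.MP_e0ff90_an.Counterexample
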